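import Pool.Agent.MP_596cf1_co.Lib

set_option autoImplicit false

namespace Pool.Agent.Results.MP_596cf1_co.ExplicitBase

theorem vals_finite (n : ℕ) : Set.Finite {p : ℤ | ∃ A : Matrix (Fin n) (Fin n) ℤ,
    (∀ i j, A i j = 1 ∨ A i j = -1) ∧ A.permanent = p} := by
  have h1 : Set.Finite {A : Fin n → Fin n → ℤ | ∀ i, A i ∈ {v : Fin n → ℤ |
      ∀ j, v j ∈ ({1, -1} : Set ℤ)}} := by
    apply Set.Finite.pi'
    intro i
    apply Set.Finite.pi'
    intro j
    exact Set.toFinite _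
  refine (h1.image (fun A : Fin n → Fin n → ℤ =>
    Matrix.permanent (A : Matrix (Fin n) (Fin n) ℤ))).subset ?_
  rintro p ⟨A, hA, rfl⟩
  exact ⟨A, fun i j => by simpa using hA i j, rfl⟩

/-- The permanent takes at least `2 ^ ⌊(n + 1) / 8⌋` different values on the sign matrices of size
`n ≥ 1`, and `|per|` at least half as many; in particular at least `(27 / 25) ^ n` values for all
`n ≥ 47`. -/
theorem result :
    (∀ n : ℕ, 1 ≤ n → 2 ^ ((n + 1) / 8) ≤
      Set.ncard {p : ℤ | ∃ A : Matrix (Fin n) (Fin n) ℤ,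
        (∀ i j, A i j = 1 ∨ A i j = -1) ∧ A.permanent = p}) ∧
    (∀ n : ℕ, 1 ≤ n → 2 ^ ((n + 1) / 8) ≤
      2 * Set.ncard {p : ℤ | ∃ A : Matrix (Fin n) (Fin n) ℤ,
        (∀ i j, A i j = 1 ∨ A i j = -1) ∧ |A.permanent| = p}) ∧
    (∀ n : ℕ, 47 ≤ n → (27 / 25 : ℝ) ^ n ≤
      ((Set.ncard {p : ℤ | ∃ A : Matrix (Fin n) (Fin n) ℤ,
        (∀ i j, A i j = 1 ∨ A i j = -1) ∧ A.permanent = p} : ℕ) : ℝ)) := by
  have key : ∀ n : ℕ, 1 ≤ n → 2 ^ ((n + 1) / 8) ≤
      Set.ncard {p : ℤ | ∃ A : Matrix (Fin n) (Fin n) ℤ,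
        (∀ i j, A i j = 1 ∨ A i j = -1) ∧ A.permanent = p} := by
    intro n hn
    obtain ⟨m, rfl⟩ : ∃ m, n = m + 1 := ⟨n - 1, by omega⟩
    exact Pool.Agent.MP_596cf1_co.ncard_ge m ((m + 1 + 1) / 8) (by omega)
  refine ⟨key, fun n hn => (key n hn).trans ?_, fun n hn => ?_⟩
  · set V : Set ℤ := {p : ℤ | ∃ A : Matrix (Fin n) (Fin n) ℤ,
        (∀ i j, A i j = 1 ∨ A i j = -1) ∧ A.permanent = p} with hV
    set W : Set ℤ := {p : ℤ | ∃ A : Matrix (Fin n) (Fin n) ℤ,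
        (∀ i j, A i j = 1 ∨ A i j = -1) ∧ |A.permanent| = p} with hW
    have hVf : V.Finite := vals_finite n
    have hWV : W = (fun x : ℤ => |x|) '' V := by
      ext p
      constructor
      · rintro ⟨A, hA, rfl⟩
        exact ⟨_, ⟨A, hA, rfl⟩, rfl⟩
      · rintro ⟨_, ⟨A, hA, rfl⟩, rfl⟩
        exact ⟨A, hA, rfl⟩
    have hWf : W.Finite := hWV ▸ hVf.image _
    have hsub : V ⊆ W ∪ (fun x : ℤ => -x) '' W := by
      intro p hp
      have h1 : |p| ∈ W := by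
        rw [hWV]
        exact ⟨p, hp, rfl⟩
      rcases abs_choice p with h | h
      · left
        rwa [h] at h1
      · right
        exact ⟨|p|, h1, by simp only [h, neg_neg]⟩
    calc V.ncard ≤ (W ∪ (fun x : ℤ => -x) '' W).ncard :=
          Set.ncard_le_ncard hsub (hWf.union (hWf.image _))
      _ ≤ W.ncard + ((fun x : ℤ => -x) '' W).ncard := Set.ncard_union_le _ _
      _ = 2 * W.ncard := by
          rw [Set.ncard_image_of_injective _ neg_injective]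
          ring
  · have h1 := key n (by omega)
    have h2 : ((2 : ℝ) ^ ((n + 1) / 8)) ≤
        ((Set.ncard {p : ℤ | ∃ A : Matrix (Fin n) (Fin n) ℤ,
        (∀ i j, A i j = 1 ∨ A i j = -1) ∧ A.permanent = p} : ℕ) : ℝ) := by
      exact_mod_cast h1
    refine le_trans ?_ h2
    obtain ⟨t, ht⟩ : ∃ t, (n + 1) / 8 = t + 6 := ⟨(n + 1) / 8 - 6, by omega⟩
    rw [ht]
    calc (27 / 25 : ℝ) ^ n ≤ (27 / 25 : ℝ) ^ (54 + 8 * t) :=
          pow_le_pow_right₀ (by norm_num) (by omega)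
      _ = (27 / 25 : ℝ) ^ 54 * ((27 / 25 : ℝ) ^ 8) ^ t := by rw [pow_add, pow_mul]
      _ ≤ 2 ^ 6 * 2 ^ t := by
          refine mul_le_mul (by norm_num) (pow_le_pow_left₀ (by positivity) (by norm_num) _)
            (by positivity) (by positivity)
      _ = 2 ^ (t + 6) := by rw [← pow_add, add_comm]

end Pool.Agent.Results.MP_596cf1_co.ExplicitBase
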